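import Mathlib

set_option autoImplicit false

/-!
The A1/A2 trick: `l ~ r`, `l ~ l'`, `r ~ r'`, `l' ~ r'`, `l r ~ l' r'` give `l r⁻¹ ~ l' r'⁻¹`.
And: `j ↦ A^j (A^D)^-j` multiplicative at `j = 1, 2` gives `A ~ A^D`.
-/

namespace Pool.Agent.H6.O1

variable {M : Type*} [Group M]

theorem trick {l r l' r' : M} (h1 : l * r = r * l) (h2 : l * l' = l' * l) (h3 : r * r' = r' * r)
    (h4 : l' * r' = r' * l') (h5 : (l * r) * (l' * r') = (l' * r') * (l * r)) :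
    (l * r⁻¹) * (l' * r'⁻¹) = (l' * r'⁻¹) * (l * r⁻¹) := by
  obtain ⟨c, hc⟩ : ∃ c, c = l'⁻¹ * r * l' * r⁻¹ := ⟨_, rfl⟩
  have hc' : c = l⁻¹ * r' * l * r'⁻¹ := by
    have e1 : r * l' * r' = l⁻¹ * (l' * r') * (l * r) := by
      calc r * l' * r' = l⁻¹ * ((l * r) * (l' * r')) := by group
        _ = l⁻¹ * ((l' * r') * (l * r)) := by rw [h5]
        _ = _ := by group
    have e2 : l⁻¹ * l' = l' * l⁻¹ := by
      calc l⁻¹ * l' = l⁻¹ * (l' * l) * l⁻¹ := by group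
        _ = l⁻¹ * (l * l') * l⁻¹ := by rw [h2]
        _ = _ := by group
    have e3 : r * r'⁻¹ = r'⁻¹ * r := by
      calc r * r'⁻¹ = r'⁻¹ * (r' * r) * r'⁻¹ := by group
        _ = r'⁻¹ * (r * r') * r'⁻¹ := by rw [h3]
        _ = _ := by group
    calc c = l'⁻¹ * (r * l' * r') * r'⁻¹ * r⁻¹ := by rw [hc]; group
      _ = l'⁻¹ * (l⁻¹ * l') * r' * l * (r * r'⁻¹) * r⁻¹ := by rw [e1]; group
      _ = l'⁻¹ * (l' * l⁻¹) * r' * l * (r'⁻¹ * r) * r⁻¹ := by rw [e2, e3]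
      _ = _ := by group
  have i2 : l⁻¹ * l' = l' * l⁻¹ := by
    calc l⁻¹ * l' = l⁻¹ * (l' * l) * l⁻¹ := by group
      _ = l⁻¹ * (l * l') * l⁻¹ := by rw [h2]
      _ = _ := by group
  have C1 : Commute l l' := h2
  have C2 : Commute r r' := h3
  have C3 : Commute l r := h1
  have C4 : Commute l' r' := h4
  -- `c` commutes with `l`, `r'` (first form) and with `r`, `l'` (second form)
  have cr' : Commute c r' := by
    rw [hc]
    exact ((C4.inv_left.mul_left C2).mul_left C4).mul_left C2.inv_left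
  have cr : Commute c r := by
    rw [hc']
    exact ((C3.inv_left.mul_left C2.symm).mul_left C3).mul_left C2.symm.inv_left
  have f1 : l'⁻¹ * r⁻¹ * l' = r⁻¹ * c⁻¹ := by
    rw [hc]; group
  have f2 : l⁻¹ * r'⁻¹ * l = r'⁻¹ * c⁻¹ := by
    rw [hc']; group
  calc (l * r⁻¹) * (l' * r'⁻¹) = l * l' * (l'⁻¹ * r⁻¹ * l') * r'⁻¹ := by group
    _ = l * l' * r⁻¹ * (c⁻¹ * r'⁻¹) := by rw [f1]; group
    _ = l * l' * r⁻¹ * (r'⁻¹ * c⁻¹) := by rw [(cr'.inv_inv).eq]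
    _ = (l * l') * (r⁻¹ * r'⁻¹) * c⁻¹ := by group
    _ = (l' * l) * (r'⁻¹ * r⁻¹) * c⁻¹ := by rw [h2, (C2.inv_inv).eq]
    _ = l' * l * r'⁻¹ * (r⁻¹ * c⁻¹) := by group
    _ = l' * l * r'⁻¹ * (c⁻¹ * r⁻¹) := by rw [(cr.inv_inv).eq]
    _ = l' * l * (r'⁻¹ * c⁻¹) * r⁻¹ := by group
    _ = l' * l * (l⁻¹ * r'⁻¹ * l) * r⁻¹ := by rw [f2]
    _ = (l' * r'⁻¹) * (l * r⁻¹) := by group

/-- `B = A^D`; `A² B⁻² = (A B⁻¹)²` gives `A B = B A` -/
theorem two_step {A B : M} (h : (A * A) * (B * B)⁻¹ = (A * B⁻¹) * (A * B⁻¹)) : A * B = B * A := by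
  have h1 : A * B⁻¹ = B⁻¹ * A := by
    have h2 := congrArg (fun x => A⁻¹ * x * B) h
    simp only [mul_inv_rev] at h2
    calc A * B⁻¹ = A⁻¹ * (A * A * (B⁻¹ * B⁻¹)) * B := by group
      _ = A⁻¹ * (A * B⁻¹ * (A * B⁻¹)) * B := h2
      _ = B⁻¹ * A := by group
  calc A * B = B * (B⁻¹ * A) * B := by group
    _ = B * (A * B⁻¹) * B := by rw [h1]
    _ = B * A := by group

end Pool.Agent.H6.O1
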